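import Mathlib

set_option autoImplicit false

/-!
# A homogeneous cone which is not a rank-one generated hyperbolicity cone

The Vinberg cone `{x ∈ ℝ^5 : (x₀, x₃; x₃, x₁) ⪰ 0, (x₀, x₄; x₄, x₂) ⪰ 0}` is homogeneous, and for
every polynomial `p` hyperbolic along `e` with hyperbolicity cone equal to the Vinberg cone some
extreme ray is generated by an element of rank at least two.
-/

namespace Pool.Agent.Results.MP_3ab8ef_ag.VinbergConeNotROG

open MvPolynomial

/-- The univariate polynomial `t ↦ p (t e - x)`. Its roots, with multiplicity, are the eigenvalues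
of `x` with respect to `p` and `e`. -/
noncomputable def charPoly {n : ℕ} (p : MvPolynomial (Fin n) ℝ) (e x : Fin n → ℝ) :
    Polynomial ℝ :=
  aeval (fun i => Polynomial.C (e i) * Polynomial.X - Polynomial.C (x i)) p

/-- The univariate polynomial `t ↦ p (x - t e)`. -/
noncomputable def linePoly {n : ℕ} (p : MvPolynomial (Fin n) ℝ) (e x : Fin n → ℝ) :
    Polynomial ℝ :=
  aeval (fun i => Polynomial.C (x i) - Polynomial.C (e i) * Polynomial.X) p

/-- The homogeneous polynomial `p` is hyperbolic along `e`: `p e > 0` and for every `x` the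
univariate polynomial `t ↦ p (x - t e)` has only real roots. -/
def IsHyperbolic {n : ℕ} (p : MvPolynomial (Fin n) ℝ) (e : Fin n → ℝ) : Prop :=
  (∃ d : ℕ, p.IsHomogeneous d) ∧ 0 < eval e p ∧
    ∀ (x : Fin n → ℝ) (z : ℂ), Polynomial.aeval z (linePoly p e x) = 0 → z.im = 0

/-- The multiset of eigenvalues of `x` with respect to `p` and `e`: the roots of
`t ↦ p (t e - x)`, counted with multiplicity. -/
noncomputable def eigenvalues {n : ℕ} (p : MvPolynomial (Fin n) ℝ) (e x : Fin n → ℝ) :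
    Multiset ℝ :=
  (charPoly p e x).roots

/-- The hyperbolicity cone `Λ₊(p, e)`: all eigenvalues are nonnegative. -/
def hyperbolicityCone {n : ℕ} (p : MvPolynomial (Fin n) ℝ) (e : Fin n → ℝ) :
    Set (Fin n → ℝ) :=
  {x | ∀ r ∈ eigenvalues p e x, 0 ≤ r}

/-- The rank of `x` with respect to `p` and `e`: the number of nonzero eigenvalues, counted with
multiplicity. -/
noncomputable def rank {n : ℕ} (p : MvPolynomial (Fin n) ℝ) (e x : Fin n → ℝ) : ℕ := by
  classical
  exact ((eigenvalues p e x).filter (fun r => r ≠ 0)).card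

/-- `F` is a convex cone (containing `0`). -/
def IsConvexCone {n : ℕ} (F : Set (Fin n → ℝ)) : Prop :=
  0 ∈ F ∧ (∀ x ∈ F, ∀ y ∈ F, x + y ∈ F) ∧ ∀ c : ℝ, 0 ≤ c → ∀ x ∈ F, c • x ∈ F

/-- `F` is a face of the cone `K`: a convex cone `F ⊆ K` such that `x, y ∈ K`, `x + y ∈ F` imply
`x, y ∈ F`. -/
def IsFace {n : ℕ} (K F : Set (Fin n → ℝ)) : Prop :=
  IsConvexCone F ∧ F ⊆ K ∧ ∀ x ∈ K, ∀ y ∈ K, x + y ∈ F → x ∈ F ∧ y ∈ F

/-- `F` is an extreme ray of `K`: a face of dimension `1`. -/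
def IsExtremeRay {n : ℕ} (K F : Set (Fin n → ℝ)) : Prop :=
  IsFace K F ∧ Module.finrank ℝ (Submodule.span ℝ F) = 1

/-- The ray generated by `x`. -/
def ray {n : ℕ} (x : Fin n → ℝ) : Set (Fin n → ℝ) :=
  {y | ∃ c : ℝ, 0 ≤ c ∧ y = c • x}

/-- `K` is a homogeneous cone (pointed, full-dimensional, closed, convex): the group of linear
automorphisms of `ℝ^n` which map `K` onto itself acts transitively on the interior of `K`. -/
structure IsHomogeneousCone {n : ℕ} (K : Set (Fin n → ℝ)) : Prop where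
  convexCone : IsConvexCone K
  closed : IsClosed K
  pointed : ∀ x ∈ K, -x ∈ K → x = 0
  fullDimensional : (interior K).Nonempty
  transitive : ∀ x ∈ interior K, ∀ y ∈ interior K,
    ∃ A : (Fin n → ℝ) ≃ₗ[ℝ] (Fin n → ℝ), A '' K = K ∧ A x = y

/-- `K` is a rank-one generated (ROG) hyperbolicity cone: there are `p` and `e`, `p` hyperbolic
along `e`, with `K = Λ₊(p, e)` and such that every extreme ray of `K` is generated by an element of
rank `1` with respect to `p` and `e`. -/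
def IsROG {n : ℕ} (K : Set (Fin n → ℝ)) : Prop :=
  ∃ (p : MvPolynomial (Fin n) ℝ) (e : Fin n → ℝ), IsHyperbolic p e ∧
    K = hyperbolicityCone p e ∧
    ∀ F : Set (Fin n → ℝ), IsExtremeRay K F → ∃ x, F = ray x ∧ rank p e x = 1

/-! ### General facts -/

section General

variable {n : ℕ}

theorem eval_aeval_poly (p : MvPolynomial (Fin n) ℝ) (f : Fin n → Polynomial ℝ) (t : ℝ) :
    (aeval f p : Polynomial ℝ).eval t = eval (fun i => (f i).eval t) p := by
  have h : (Polynomial.evalRingHom t).comp (aeval f : MvPolynomial (Fin n) ℝ →ₐ[ℝ] Polynomial ℝ).toRingHom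
      = eval (fun i => (f i).eval t) := by
    apply MvPolynomial.ringHom_ext
    · intro r
      simp
    · intro i
      simp
  exact congrFun (congrArg DFunLike.coe h) p

theorem eval_charPoly (p : MvPolynomial (Fin n) ℝ) (e x : Fin n → ℝ) (t : ℝ) :
    (charPoly p e x).eval t = eval (t • e - x) p := by
  rw [charPoly, eval_aeval_poly]
  have h : (fun i => (Polynomial.C (e i) * Polynomial.X - Polynomial.C (x i)).eval t) =
      t • e - x := by
    funext i
    simp only [Polynomial.eval_sub, Polynomial.eval_C, Polynomial.eval_mul, Polynomial.eval_X,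
      Pi.smul_apply, Pi.sub_apply, smul_eq_mul]
    ring
  rw [h]

theorem eval_smul_of_homog {p : MvPolynomial (Fin n) ℝ} {d : ℕ} (hp : p.IsHomogeneous d) (c : ℝ)
    (x : Fin n → ℝ) : eval (c • x) p = c ^ d * eval x p := by
  rw [eval_eq', eval_eq', Finset.mul_sum]
  apply Finset.sum_congr rfl
  intro m hm
  have hdeg : m.degree = d := by
    rw [Finsupp.degree_eq_weight_one]
    exact hp (mem_support_iff.mp hm)
  have : ∏ i, ((c • x) i) ^ m i = c ^ d * ∏ i, x i ^ m i := by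
    simp_rw [Pi.smul_apply, smul_eq_mul, mul_pow]
    rw [Finset.prod_mul_distrib, Finset.prod_pow_eq_pow_sum, ← Finsupp.degree_eq_sum, hdeg]
  rw [this]; ring

/-- A polynomial which vanishes on infinitely many points of a polynomial curve vanishes on the
whole curve. -/
theorem vanish_curve (p : MvPolynomial (Fin n) ℝ) (f : Fin n → Polynomial ℝ) (S : Set ℝ)
    (hS : S.Infinite) (h : ∀ t ∈ S, eval (fun i => (f i).eval t) p = 0) (t : ℝ) :
    eval (fun i => (f i).eval t) p = 0 := by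
  have h0 : (aeval f p : Polynomial ℝ) = 0 := by
    apply Polynomial.eq_zero_of_infinite_isRoot
    apply hS.mono
    intro s hs
    show Polynomial.IsRoot _ s
    rw [Polynomial.IsRoot, eval_aeval_poly]
    exact h s hs
  rw [← eval_aeval_poly, h0, Polynomial.eval_zero]

theorem charPoly_ne_zero {p : MvPolynomial (Fin n) ℝ} {e : Fin n → ℝ} {d : ℕ}
    (hp : p.IsHomogeneous d) (he : 0 < eval e p) (x : Fin n → ℝ) : charPoly p e x ≠ 0 := by
  intro h
  have h1 : ∀ t : ℝ, eval (t • e - x) p = 0 := by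
    intro t
    rw [← eval_charPoly, h, Polynomial.eval_zero]
  have h2 : ∀ s ∈ {s : ℝ | s ≠ 0},
      eval (fun i => (Polynomial.C (e i) - Polynomial.C (x i) * Polynomial.X).eval s) p = 0 := by
    intro s hs
    have h3 : (fun i => (Polynomial.C (e i) - Polynomial.C (x i) * Polynomial.X).eval s) =
        s • ((1 / s) • e - x) := by
      ext i
      have : s ≠ 0 := hs
      simp only [Polynomial.eval_sub, Polynomial.eval_C, Polynomial.eval_mul, Polynomial.eval_X,
        Pi.smul_apply, Pi.sub_apply, smul_eq_mul]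
      field_simp
    rw [h3, eval_smul_of_homog hp, h1, mul_zero]
  have h4 := vanish_curve p _ _ (Set.Ioi_infinite (0 : ℝ) |>.mono
    (fun s (hs : 0 < s) => (ne_of_gt hs : s ≠ 0))) h2 0
  have h5 : (fun i => (Polynomial.C (e i) - Polynomial.C (x i) * Polynomial.X).eval 0) = e := by
    ext i
    simp
  rw [h5] at h4
  linarith

theorem mem_cone_iff {p : MvPolynomial (Fin n) ℝ} {e : Fin n → ℝ} {d : ℕ}
    (hp : p.IsHomogeneous d) (he : 0 < eval e p) (x : Fin n → ℝ) :
    x ∈ hyperbolicityCone p e ↔ ∀ t : ℝ, eval (t • e - x) p = 0 → 0 ≤ t := by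
  unfold hyperbolicityCone eigenvalues
  simp only [Set.mem_ofPred_eq]
  constructor
  · intro h t ht
    apply h
    rw [Polynomial.mem_roots (charPoly_ne_zero hp he x), Polynomial.IsRoot, eval_charPoly]
    exact ht
  · intro h t ht
    rw [Polynomial.mem_roots (charPoly_ne_zero hp he x), Polynomial.IsRoot, eval_charPoly] at ht
    exact h t ht

theorem finite_zeros {p : MvPolynomial (Fin n) ℝ} {e : Fin n → ℝ} {d : ℕ}
    (hp : p.IsHomogeneous d) (he : 0 < eval e p) (x : Fin n → ℝ) :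
    {t : ℝ | eval (t • e - x) p = 0}.Finite := by
  have h : {t : ℝ | eval (t • e - x) p = 0} ⊆ ((charPoly p e x).roots.toFinset : Set ℝ) := by
    intro t ht
    simp only [Finset.mem_coe, Multiset.mem_toFinset]
    rw [Polynomial.mem_roots (charPoly_ne_zero hp he x), Polynomial.IsRoot, eval_charPoly]
    exact ht
  exact (Finset.finite_toSet _).subset h

/-- The cone absorbs every vector in the direction `e`. -/
theorem absorb {p : MvPolynomial (Fin n) ℝ} {e : Fin n → ℝ} {d : ℕ}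
    (hp : p.IsHomogeneous d) (he : 0 < eval e p) (x : Fin n → ℝ) :
    ∃ M : ℝ, 0 < M ∧ x + M • e ∈ hyperbolicityCone p e := by
  obtain ⟨B, hB⟩ := (finite_zeros hp he x).bddBelow
  refine ⟨max 1 (-B), lt_of_lt_of_le one_pos (le_max_left _ _), ?_⟩
  rw [mem_cone_iff hp he]
  intro t ht
  have h1 : t • e - (x + (max 1 (-B)) • e) = (t - max 1 (-B)) • e - x := by
    rw [sub_smul]; abel
  rw [h1] at ht
  have h2 : B ≤ t - max 1 (-B) := hB ht
  have h3 : -B ≤ max 1 (-B) := le_max_right _ _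
  linarith

/-- A point of the cone at which `p` does not vanish can be moved a little against `e`. -/
theorem move {p : MvPolynomial (Fin n) ℝ} {e : Fin n → ℝ} {d : ℕ}
    (hp : p.IsHomogeneous d) (he : 0 < eval e p) (x : Fin n → ℝ)
    (hx : x ∈ hyperbolicityCone p e) (hpx : eval x p ≠ 0) :
    ∃ ε : ℝ, 0 < ε ∧ ∀ δ : ℝ, δ ≤ ε → x - δ • e ∈ hyperbolicityCone p e := by
  have hpos : ∀ t : ℝ, eval (t • e - x) p = 0 → 0 < t := by
    intro t ht
    rcases ((mem_cone_iff hp he x).mp hx t ht).lt_or_eq with h | h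
    · exact h
    · exfalso
      apply hpx
      rw [← h, zero_smul, zero_sub] at ht
      have h1 : x = (-1 : ℝ) • (-x) := by simp
      rw [h1, eval_smul_of_homog hp, ht, mul_zero]
  obtain ⟨ε, hε, hε'⟩ : ∃ ε : ℝ, 0 < ε ∧ ∀ t ∈ (finite_zeros hp he x).toFinset, ε ≤ t := by
    rcases (finite_zeros hp he x).toFinset.eq_empty_or_nonempty with h | h
    · exact ⟨1, one_pos, by simp [h]⟩
    · refine ⟨(finite_zeros hp he x).toFinset.min' h, ?_, fun t ht => Finset.min'_le _ _ ht⟩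
      apply hpos
      have := Finset.min'_mem _ h
      simpa using this
  refine ⟨ε, hε, fun δ hδ => ?_⟩
  rw [mem_cone_iff hp he]
  intro t ht
  have h1 : t • e - (x - δ • e) = (t + δ) • e - x := by
    rw [add_smul]; abel
  rw [h1] at ht
  have := hε' (t + δ) (by simpa using ht)
  linarith

end General

/-! ### The Vinberg cone -/

/-- The Vinberg cone: the symmetric matrices `(x₀, x₃; x₃, x₁)` and `(x₀, x₄; x₄, x₂)` are positive
semidefinite. -/
def vinbergCone : Set (Fin 5 → ℝ) :=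
  {x | 0 ≤ x 0 ∧ 0 ≤ x 1 ∧ 0 ≤ x 2 ∧ x 3 ^ 2 ≤ x 0 * x 1 ∧ x 4 ^ 2 ≤ x 0 * x 2}

theorem vinberg_cone : IsConvexCone vinbergCone := by
  refine ⟨by simp [vinbergCone], ?_, ?_⟩
  · rintro x ⟨h0, h1, h2, h3, h4⟩ y ⟨k0, k1, k2, k3, k4⟩
    simp only [vinbergCone, Set.mem_ofPred_eq, Pi.add_apply]
    have key : ∀ a b c a' b' c' : ℝ, 0 ≤ a → 0 ≤ b → 0 ≤ a' → 0 ≤ b' → c ^ 2 ≤ a * b →
        c' ^ 2 ≤ a' * b' → (c + c') ^ 2 ≤ (a + a') * (b + b') := by
      intro a b c a' b' c' ha hb ha' hb' h h'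
      have h5 : (c * c') ^ 2 ≤ (a * b') * (a' * b) := by
        calc (c * c') ^ 2 = c ^ 2 * c' ^ 2 := by ring
          _ ≤ (a * b) * (a' * b') := by gcongr
          _ = (a * b') * (a' * b) := by ring
      have h6 : 2 * (c * c') ≤ a * b' + a' * b := by
        have h7 : (2 * (c * c')) ^ 2 ≤ (a * b' + a' * b) ^ 2 := by
          nlinarith [sq_nonneg (a * b' - a' * b)]
        exact abs_le_of_sq_le_sq' h7 (by positivity) |>.2
      nlinarith
    exact ⟨add_nonneg h0 k0, add_nonneg h1 k1, add_nonneg h2 k2,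
      key _ _ _ _ _ _ h0 h1 k0 k1 h3 k3, key _ _ _ _ _ _ h0 h2 k0 k2 h4 k4⟩
  · rintro c hc x ⟨h0, h1, h2, h3, h4⟩
    simp only [vinbergCone, Set.mem_ofPred_eq, Pi.smul_apply, smul_eq_mul]
    refine ⟨by positivity, by positivity, by positivity, ?_, ?_⟩
    · nlinarith [mul_le_mul_of_nonneg_left h3 (sq_nonneg c)]
    · nlinarith [mul_le_mul_of_nonneg_left h4 (sq_nonneg c)]

theorem vinberg_closed : IsClosed vinbergCone := by
  unfold vinbergCone
  simp only [Set.ofPred_and]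
  refine IsClosed.inter (isClosed_le (by fun_prop) (by fun_prop)) ?_
  refine IsClosed.inter (isClosed_le (by fun_prop) (by fun_prop)) ?_
  refine IsClosed.inter (isClosed_le (by fun_prop) (by fun_prop)) ?_
  exact IsClosed.inter (isClosed_le (by fun_prop) (by fun_prop))
    (isClosed_le (by fun_prop) (by fun_prop))

theorem vinberg_pointed : ∀ x ∈ vinbergCone, -x ∈ vinbergCone → x = 0 := by
  rintro x ⟨h0, h1, h2, h3, h4⟩ ⟨k0, k1, k2, k3, k4⟩
  simp only [Pi.neg_apply] at k0 k1 k2 k3 k4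
  have e0 : x 0 = 0 := by linarith
  have e1 : x 1 = 0 := by linarith
  have e2 : x 2 = 0 := by linarith
  rw [e0, zero_mul] at h3 h4
  have e3 : x 3 = 0 := pow_eq_zero_iff (two_ne_zero) |>.mp (le_antisymm h3 (sq_nonneg _))
  have e4 : x 4 = 0 := pow_eq_zero_iff (two_ne_zero) |>.mp (le_antisymm h4 (sq_nonneg _))
  funext i
  fin_cases i
  · exact e0
  · exact e1
  · exact e2
  · exact e3
  · exact e4

/-- The open Vinberg cone. -/
def openCone : Set (Fin 5 → ℝ) :=
  {x | 0 < x 0 ∧ 0 < x 1 ∧ 0 < x 2 ∧ x 3 ^ 2 < x 0 * x 1 ∧ x 4 ^ 2 < x 0 * x 2}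

theorem openCone_isOpen : IsOpen openCone := by
  unfold openCone
  simp only [Set.ofPred_and]
  refine IsOpen.inter (isOpen_lt (by fun_prop) (by fun_prop)) ?_
  refine IsOpen.inter (isOpen_lt (by fun_prop) (by fun_prop)) ?_
  refine IsOpen.inter (isOpen_lt (by fun_prop) (by fun_prop)) ?_
  exact IsOpen.inter (isOpen_lt (by fun_prop) (by fun_prop))
    (isOpen_lt (by fun_prop) (by fun_prop))

theorem openCone_subset : openCone ⊆ vinbergCone := by
  rintro x ⟨h0, h1, h2, h3, h4⟩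
  exact ⟨h0.le, h1.le, h2.le, h3.le, h4.le⟩

/-- If `x - δ e ∈ K` for a positive `δ`, `e = (1,1,1,0,0)`, then `x` is in the open cone. -/
theorem mem_open_of_sub (x : Fin 5 → ℝ) (δ : ℝ) (hδ : 0 < δ)
    (h : x - δ • ![1, 1, 1, 0, 0] ∈ vinbergCone) : x ∈ openCone := by
  obtain ⟨h0, h1, h2, h3, h4⟩ := h
  have a0 : (x - δ • (![1, 1, 1, 0, 0] : Fin 5 → ℝ)) 0 = x 0 - δ := by simp
  have a1 : (x - δ • (![1, 1, 1, 0, 0] : Fin 5 → ℝ)) 1 = x 1 - δ := by simp
  have a2 : (x - δ • (![1, 1, 1, 0, 0] : Fin 5 → ℝ)) 2 = x 2 - δ := by simp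
  have a3 : (x - δ • (![1, 1, 1, 0, 0] : Fin 5 → ℝ)) 3 = x 3 := by simp
  have a4 : (x - δ • (![1, 1, 1, 0, 0] : Fin 5 → ℝ)) 4 = x 4 := by simp
  rw [a0] at h0 h3 h4
  rw [a1] at h1 h3
  rw [a2] at h2 h4
  rw [a3] at h3
  rw [a4] at h4
  refine ⟨by linarith, by linarith, by linarith, ?_, ?_⟩
  · nlinarith
  · nlinarith

theorem interior_subset_open : interior vinbergCone ⊆ openCone := by
  intro x hx
  have h1 : Filter.Tendsto (fun δ : ℝ => x - δ • (![1, 1, 1, 0, 0] : Fin 5 → ℝ))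
      (nhdsWithin 0 (Set.Ioi 0)) (nhds x) := by
    have h2 : Continuous (fun δ : ℝ => x - δ • (![1, 1, 1, 0, 0] : Fin 5 → ℝ)) := by fun_prop
    have h3 := h2.tendsto 0
    simp only [zero_smul, sub_zero] at h3
    exact h3.mono_left nhdsWithin_le_nhds
  have h4 : ∀ᶠ δ in nhdsWithin (0 : ℝ) (Set.Ioi 0),
      x - δ • (![1, 1, 1, 0, 0] : Fin 5 → ℝ) ∈ vinbergCone :=
    h1.eventually (mem_interior_iff_mem_nhds.mp hx)
  have h5 : ∀ᶠ δ in nhdsWithin (0 : ℝ) (Set.Ioi 0), δ ∈ Set.Ioi (0 : ℝ) :=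
    eventually_nhdsWithin_of_forall fun δ h => h
  obtain ⟨δ, h6, h7⟩ := (h4.and h5).exists
  exact mem_open_of_sub x δ h7 h6

theorem interior_eq : interior vinbergCone = openCone :=
  subset_antisymm interior_subset_open (interior_maximal openCone_subset openCone_isOpen)

/-- The linear map `(M₁, M₂) ↦ (T₁ M₁ T₁ᵗ, T₂ M₂ T₂ᵗ)`, `T₁ = (a, 0; c, b)`,
`T₂ = (a, 0; d, f)`. -/
def act (a b c d f : ℝ) : (Fin 5 → ℝ) →ₗ[ℝ] (Fin 5 → ℝ) where
  toFun x := ![a ^ 2 * x 0, c ^ 2 * x 0 + 2 * b * c * x 3 + b ^ 2 * x 1,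
    d ^ 2 * x 0 + 2 * f * d * x 4 + f ^ 2 * x 2, a * (c * x 0 + b * x 3), a * (d * x 0 + f * x 4)]
  map_add' x y := by
    funext i
    fin_cases i <;> simp
    all_goals ring
  map_smul' r x := by
    funext i
    fin_cases i <;> simp
    all_goals ring

theorem act_mem (a b c d f : ℝ) (x : Fin 5 → ℝ) (hx : x ∈ vinbergCone) :
    act a b c d f x ∈ vinbergCone := by
  obtain ⟨h0, h1, h2, h3, h4⟩ := hx
  have key : ∀ u v w b c : ℝ, 0 ≤ u → 0 ≤ v → w ^ 2 ≤ u * v →
      0 ≤ c ^ 2 * u + 2 * b * c * w + b ^ 2 * v := by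
    intro u v w b c hu hv h
    rcases hu.lt_or_eq with hu | hu
    · have : 0 ≤ u * (c ^ 2 * u + 2 * b * c * w + b ^ 2 * v) := by
        nlinarith [sq_nonneg (c * u + b * w), mul_nonneg (sq_nonneg b) (sub_nonneg.mpr h)]
      exact nonneg_of_mul_nonneg_right this hu
    · rw [← hu, zero_mul] at h
      have hw : w = 0 := pow_eq_zero_iff (two_ne_zero) |>.mp (le_antisymm h (sq_nonneg _))
      rw [hw, ← hu]
      nlinarith [mul_nonneg (sq_nonneg b) hv]
  simp only [act, LinearMap.coe_mk, AddHom.coe_mk, vinbergCone, Set.mem_ofPred_eq]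
  simp only [Matrix.cons_val_zero, Matrix.cons_val_one, Matrix.cons_val]
  refine ⟨by positivity, key _ _ _ _ _ h0 h1 h3, key _ _ _ _ _ h0 h2 h4, ?_, ?_⟩
  · nlinarith [mul_nonneg (mul_nonneg (sq_nonneg a) (sq_nonneg b)) (sub_nonneg.mpr h3)]
  · nlinarith [mul_nonneg (mul_nonneg (sq_nonneg a) (sq_nonneg f)) (sub_nonneg.mpr h4)]

theorem act_act (a b c d f a' b' c' d' f' : ℝ) (x : Fin 5 → ℝ) :
    act a b c d f (act a' b' c' d' f' x) =
      act (a * a') (b * b') (c * a' + b * c') (d * a' + f * d') (f * f') x := by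
  funext i
  fin_cases i <;> simp [act] <;> ring

theorem act_one (x : Fin 5 → ℝ) : act 1 1 0 0 1 x = x := by
  funext i
  fin_cases i <;> simp [act]

/-- `act` as a linear automorphism. -/
noncomputable def actEquiv (a b c d f : ℝ) (ha : a ≠ 0) (hb : b ≠ 0) (hf : f ≠ 0) :
    (Fin 5 → ℝ) ≃ₗ[ℝ] (Fin 5 → ℝ) where
  toLinearMap := act a b c d f
  invFun := act a⁻¹ b⁻¹ (-(c * a⁻¹ * b⁻¹)) (-(d * a⁻¹ * f⁻¹)) f⁻¹
  left_inv x := by
    show act a⁻¹ b⁻¹ (-(c * a⁻¹ * b⁻¹)) (-(d * a⁻¹ * f⁻¹)) f⁻¹ (act a b c d f x) = x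
    rw [act_act]
    have e1 : a⁻¹ * a = 1 := inv_mul_cancel₀ ha
    have e2 : b⁻¹ * b = 1 := inv_mul_cancel₀ hb
    have e3 : f⁻¹ * f = 1 := inv_mul_cancel₀ hf
    have e4 : -(c * a⁻¹ * b⁻¹) * a + b⁻¹ * c = 0 := by field_simp; ring
    have e5 : -(d * a⁻¹ * f⁻¹) * a + f⁻¹ * d = 0 := by field_simp; ring
    rw [e1, e2, e3, e4, e5, act_one]
  right_inv x := by
    show act a b c d f (act a⁻¹ b⁻¹ (-(c * a⁻¹ * b⁻¹)) (-(d * a⁻¹ * f⁻¹)) f⁻¹ x) = x
    rw [act_act]
    have e1 : a * a⁻¹ = 1 := mul_inv_cancel₀ ha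
    have e2 : b * b⁻¹ = 1 := mul_inv_cancel₀ hb
    have e3 : f * f⁻¹ = 1 := mul_inv_cancel₀ hf
    have e4 : c * a⁻¹ + b * -(c * a⁻¹ * b⁻¹) = 0 := by field_simp; ring
    have e5 : d * a⁻¹ + f * -(d * a⁻¹ * f⁻¹) = 0 := by field_simp; ring
    rw [e1, e2, e3, e4, e5, act_one]

theorem actEquiv_image (a b c d f : ℝ) (ha : a ≠ 0) (hb : b ≠ 0) (hf : f ≠ 0) :
    actEquiv a b c d f ha hb hf '' vinbergCone = vinbergCone := by
  apply subset_antisymm
  · rintro _ ⟨x, hx, rfl⟩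
    exact act_mem _ _ _ _ _ x hx
  · intro x hx
    exact ⟨(actEquiv a b c d f ha hb hf).symm x, act_mem _ _ _ _ _ x hx,
      (actEquiv a b c d f ha hb hf).apply_symm_apply x⟩

/-- Every point of the open cone is the image of `(1,1,1,0,0)`. -/
theorem exists_act (x : Fin 5 → ℝ) (hx : x ∈ openCone) :
    ∃ A : (Fin 5 → ℝ) ≃ₗ[ℝ] (Fin 5 → ℝ), A '' vinbergCone = vinbergCone ∧
      A ![1, 1, 1, 0, 0] = x := by
  obtain ⟨h0, h1, h2, h3, h4⟩ := hx
  have s0 : 0 < x 0 := h0
  have hb : 0 < (x 0 * x 1 - x 3 ^ 2) / x 0 := div_pos (by linarith) h0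
  have hf : 0 < (x 0 * x 2 - x 4 ^ 2) / x 0 := div_pos (by linarith) h0
  have r0 : Real.sqrt (x 0) ≠ 0 := (Real.sqrt_pos.mpr h0).ne'
  have r0s : Real.sqrt (x 0) ^ 2 = x 0 := Real.sq_sqrt h0.le
  refine ⟨actEquiv (Real.sqrt (x 0)) (Real.sqrt ((x 0 * x 1 - x 3 ^ 2) / x 0))
    (x 3 / Real.sqrt (x 0)) (x 4 / Real.sqrt (x 0))
    (Real.sqrt ((x 0 * x 2 - x 4 ^ 2) / x 0)) r0
    (Real.sqrt_pos.mpr hb).ne' (Real.sqrt_pos.mpr hf).ne', actEquiv_image _ _ _ _ _ _ _ _, ?_⟩
  show act _ _ _ _ _ _ = x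
  have q1 : (x 3 / Real.sqrt (x 0)) ^ 2 + Real.sqrt ((x 0 * x 1 - x 3 ^ 2) / x 0) ^ 2 = x 1 := by
    rw [Real.sq_sqrt hb.le, div_pow, r0s]
    field_simp
    ring
  have q2 : (x 4 / Real.sqrt (x 0)) ^ 2 + Real.sqrt ((x 0 * x 2 - x 4 ^ 2) / x 0) ^ 2 = x 2 := by
    rw [Real.sq_sqrt hf.le, div_pow, r0s]
    field_simp
    ring
  have q3 : Real.sqrt (x 0) * (x 3 / Real.sqrt (x 0)) = x 3 := by field_simp
  have q4 : Real.sqrt (x 0) * (x 4 / Real.sqrt (x 0)) = x 4 := by field_simp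
  funext i
  fin_cases i
  · simp [act, r0s]
  · simpa [act] using q1
  · simpa [act] using q2
  · simpa [act] using q3
  · simpa [act] using q4

theorem vinberg_homogeneous : IsHomogeneousCone vinbergCone where
  convexCone := vinberg_cone
  closed := vinberg_closed
  pointed := vinberg_pointed
  fullDimensional := by
    rw [interior_eq]
    exact ⟨![1, 1, 1, 0, 0], by simp [openCone]⟩
  transitive := by
    intro x hx y hy
    rw [interior_eq] at hx hy
    obtain ⟨A, hA, hAx⟩ := exists_act x hx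
    obtain ⟨B, hB, hBy⟩ := exists_act y hy
    refine ⟨A.symm.trans B, ?_, ?_⟩
    · have h1 : A.symm '' vinbergCone = vinbergCone := by
        conv_lhs => rw [← hA]
        rw [← Set.image_comp]
        simp
      have h2 : (A.symm.trans B : (Fin 5 → ℝ) → (Fin 5 → ℝ)) = B ∘ A.symm := rfl
      rw [h2, Set.image_comp, h1, hB]
    · simp only [LinearEquiv.trans_apply]
      rw [← hBy]
      congr 1
      rw [LinearEquiv.symm_apply_eq, hAx]

/-! ### Polynomials vanishing on the boundary -/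

/-- The quadratic form `x₀ e₁ + x₁ e₀ - 2 x₃ e₃` is positive if `e` is positive definite and
`x₀ x₁ = x₃ ^ 2`, `x₀ > 0`. -/
theorem mixed_pos (x0 x1 x3 e0 e1 e3 : ℝ) (h0 : 0 < x0) (h : x3 ^ 2 = x0 * x1) (he0 : 0 < e0)
    (he : e3 ^ 2 < e0 * e1) : 0 < x0 * e1 + x1 * e0 - 2 * x3 * e3 := by
  have h1 : 0 < (x0 * e0) * (x0 * e1 + x1 * e0 - 2 * x3 * e3) := by
    have : (x0 * e0) * (x0 * e1 + x1 * e0 - 2 * x3 * e3) =
        (e0 * x3 - x0 * e3) ^ 2 + x0 ^ 2 * (e0 * e1 - e3 ^ 2) := by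
      linear_combination (-e0 ^ 2) * h
    rw [this]
    have : 0 < x0 ^ 2 * (e0 * e1 - e3 ^ 2) := mul_pos (by positivity) (by linarith)
    positivity
  exact pos_of_mul_pos_right h1 (by positivity)

theorem exists_small (B Q ε : ℝ) (hB : 0 < B) (hQ : 0 < Q) (hε : 0 < ε)
    (h : ∀ δ : ℝ, 0 < δ → δ ≤ ε → B ≤ δ * Q) : False := by
  have h1 := h (min ε (B / (2 * Q))) (lt_min hε (by positivity)) (min_le_left _ _)
  have h2 : min ε (B / (2 * Q)) * Q ≤ (B / (2 * Q)) * Q := by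
    gcongr
    exact min_le_right _ _
  have h3 : (B / (2 * Q)) * Q = B / 2 := by field_simp
  linarith

/-- A hyperbolicity direction of a polynomial with hyperbolicity cone the Vinberg cone lies in the
open cone. -/
theorem dir_mem {p : MvPolynomial (Fin 5) ℝ} {e : Fin 5 → ℝ} {d : ℕ}
    (hp : p.IsHomogeneous d) (he : 0 < eval e p) (hK : vinbergCone = hyperbolicityCone p e) :
    e ∈ openCone := by
  obtain ⟨M, hM, h⟩ := absorb hp he (-![1, 1, 1, 0, 0])
  rw [← hK] at h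
  obtain ⟨h0, h1, h2, h3, h4⟩ := h
  have a0 : (-(![1, 1, 1, 0, 0] : Fin 5 → ℝ) + M • e) 0 = M * e 0 - 1 := by
    simp; ring
  have a1 : (-(![1, 1, 1, 0, 0] : Fin 5 → ℝ) + M • e) 1 = M * e 1 - 1 := by
    simp; ring
  have a2 : (-(![1, 1, 1, 0, 0] : Fin 5 → ℝ) + M • e) 2 = M * e 2 - 1 := by
    simp; ring
  have a3 : (-(![1, 1, 1, 0, 0] : Fin 5 → ℝ) + M • e) 3 = M * e 3 := by simp
  have a4 : (-(![1, 1, 1, 0, 0] : Fin 5 → ℝ) + M • e) 4 = M * e 4 := by simp
  rw [a0] at h0 h3 h4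
  rw [a1] at h1 h3
  rw [a2] at h2 h4
  rw [a3] at h3
  rw [a4] at h4
  have p0 : 0 < e 0 := pos_of_mul_pos_right (by linarith : 0 < M * e 0) hM.le
  have p1 : 0 < e 1 := pos_of_mul_pos_right (by linarith : 0 < M * e 1) hM.le
  have p2 : 0 < e 2 := pos_of_mul_pos_right (by linarith : 0 < M * e 2) hM.le
  refine ⟨p0, p1, p2, ?_, ?_⟩
  · have : M ^ 2 * e 3 ^ 2 < M ^ 2 * (e 0 * e 1) := by nlinarith
    exact lt_of_mul_lt_mul_left this (by positivity)
  · have : M ^ 2 * e 4 ^ 2 < M ^ 2 * (e 0 * e 2) := by nlinarith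
    exact lt_of_mul_lt_mul_left this (by positivity)

/-- `p` vanishes on the part of the boundary of the cone where the first matrix is singular and the
second one is positive definite. -/
theorem vanish_first {p : MvPolynomial (Fin 5) ℝ} {e : Fin 5 → ℝ} {d : ℕ}
    (hp : p.IsHomogeneous d) (he : 0 < eval e p) (hK : vinbergCone = hyperbolicityCone p e)
    (x : Fin 5 → ℝ) (h0 : 0 < x 0) (h1 : x 3 ^ 2 = x 0 * x 1) (h2 : x 4 ^ 2 < x 0 * x 2) :
    eval x p = 0 := by
  obtain ⟨e0, e1, e2, e3, e4⟩ := dir_mem hp he hK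
  by_contra hpx
  have hx1 : 0 ≤ x 1 := by
    have : 0 ≤ x 0 * x 1 := h1 ▸ sq_nonneg _
    exact nonneg_of_mul_nonneg_right this h0
  have hx2 : 0 < x 2 := by
    have : 0 < x 0 * x 2 := lt_of_le_of_lt (sq_nonneg _) h2
    exact pos_of_mul_pos_right this h0.le
  have hx : x ∈ hyperbolicityCone p e := by
    rw [← hK]
    exact ⟨h0.le, hx1, hx2.le, h1.le, h2.le⟩
  obtain ⟨ε, hε, hmove⟩ := move hp he x hx hpx
  have hB := mixed_pos (x 0) (x 1) (x 3) (e 0) (e 1) (e 3) h0 h1 e0 e3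
  refine exists_small _ (e 0 * e 1 - e 3 ^ 2) ε hB (by linarith) hε ?_
  intro δ hδ hδε
  have hm := hmove δ hδε
  rw [← hK] at hm
  have h5 := hm.2.2.2.1
  simp only [Pi.sub_apply, Pi.smul_apply, smul_eq_mul] at h5
  have h6 : δ * (x 0 * e 1 + x 1 * e 0 - 2 * x 3 * e 3) ≤ δ * (δ * (e 0 * e 1 - e 3 ^ 2)) := by
    nlinarith
  exact le_of_mul_le_mul_left h6 hδ

theorem vanish_second {p : MvPolynomial (Fin 5) ℝ} {e : Fin 5 → ℝ} {d : ℕ}
    (hp : p.IsHomogeneous d) (he : 0 < eval e p) (hK : vinbergCone = hyperbolicityCone p e)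
    (x : Fin 5 → ℝ) (h0 : 0 < x 0) (h1 : x 4 ^ 2 = x 0 * x 2) (h2 : x 3 ^ 2 < x 0 * x 1) :
    eval x p = 0 := by
  obtain ⟨e0, e1, e2, e3, e4⟩ := dir_mem hp he hK
  by_contra hpx
  have hx2 : 0 ≤ x 2 := by
    have : 0 ≤ x 0 * x 2 := h1 ▸ sq_nonneg _
    exact nonneg_of_mul_nonneg_right this h0
  have hx1 : 0 < x 1 := by
    have : 0 < x 0 * x 1 := lt_of_le_of_lt (sq_nonneg _) h2
    exact pos_of_mul_pos_right this h0.le
  have hx : x ∈ hyperbolicityCone p e := by
    rw [← hK]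
    exact ⟨h0.le, hx1.le, hx2, h2.le, h1.le⟩
  obtain ⟨ε, hε, hmove⟩ := move hp he x hx hpx
  have hB := mixed_pos (x 0) (x 2) (x 4) (e 0) (e 2) (e 4) h0 h1 e0 e4
  refine exists_small _ (e 0 * e 2 - e 4 ^ 2) ε hB (by linarith) hε ?_
  intro δ hδ hδε
  have hm := hmove δ hδε
  rw [← hK] at hm
  have h5 := hm.2.2.2.2
  simp only [Pi.sub_apply, Pi.smul_apply, smul_eq_mul] at h5
  have h6 : δ * (x 0 * e 2 + x 2 * e 0 - 2 * x 4 * e 4) ≤ δ * (δ * (e 0 * e 2 - e 4 ^ 2)) := by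
    nlinarith
  exact le_of_mul_le_mul_left h6 hδ

open Polynomial in
/-- `p` vanishes on the whole quadric `x₀ x₁ = x₃ ^ 2`. -/
theorem vanish_quadric_first {p : MvPolynomial (Fin 5) ℝ} {e : Fin 5 → ℝ} {d : ℕ}
    (hp : p.IsHomogeneous d) (he : 0 < MvPolynomial.eval e p)
    (hK : vinbergCone = hyperbolicityCone p e)
    (x : Fin 5 → ℝ) (h1 : x 3 ^ 2 = x 0 * x 1) : MvPolynomial.eval x p = 0 := by
  -- the points `(u², v², z, u v, w)` with `u ≠ 0`
  have s1 : ∀ u v z w : ℝ, u ≠ 0 → MvPolynomial.eval ![u ^ 2, v ^ 2, z, u * v, w] p = 0 := by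
    intro u v z w hu
    have hu2 : 0 < u ^ 2 := by positivity
    have h := vanish_curve p ![Polynomial.C (u ^ 2), Polynomial.C (v ^ 2), Polynomial.X,
      Polynomial.C (u * v), Polynomial.C w] (Set.Ioi (w ^ 2 / u ^ 2)) (Set.Ioi_infinite _) ?_ z
    · have e1 : (fun i => (![Polynomial.C (u ^ 2), Polynomial.C (v ^ 2), Polynomial.X,
          Polynomial.C (u * v), Polynomial.C w] i).eval z) = ![u ^ 2, v ^ 2, z, u * v, w] := by
        funext i
        fin_cases i <;> simp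
      rw [e1] at h
      exact h
    · intro t ht
      apply vanish_first hp he hK
      · simpa using hu2
      · simp; ring
      · have ht' : w ^ 2 / u ^ 2 < t := ht
        rw [div_lt_iff₀ hu2] at ht'
        simp
        linarith
  -- all the points `(u², v², z, u v, w)`
  have s2 : ∀ u v z w : ℝ, MvPolynomial.eval ![u ^ 2, v ^ 2, z, u * v, w] p = 0 := by
    intro u v z w
    have h := vanish_curve p ![Polynomial.X ^ 2, Polynomial.C (v ^ 2), Polynomial.C z,
      Polynomial.X * Polynomial.C v, Polynomial.C w] (Set.Ioi 0) (Set.Ioi_infinite _) ?_ u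
    · have e1 : (fun i => (![Polynomial.X ^ 2, Polynomial.C (v ^ 2), Polynomial.C z,
          Polynomial.X * Polynomial.C v, Polynomial.C w] i).eval u) =
          ![u ^ 2, v ^ 2, z, u * v, w] := by
        funext i
        fin_cases i <;> simp
        all_goals ring
      rw [e1] at h
      exact h
    · intro t ht
      have ht' : 0 < t := ht
      have e1 : (fun i => (![Polynomial.X ^ 2, Polynomial.C (v ^ 2), Polynomial.C z,
          Polynomial.X * Polynomial.C v, Polynomial.C w] i).eval t) =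
          ![t ^ 2, v ^ 2, z, t * v, w] := by
        funext i
        fin_cases i <;> simp
        all_goals ring
      rw [e1]
      exact s1 t v z w ht'.ne'
  -- nonnegative points
  have s3 : ∀ y : Fin 5 → ℝ, 0 ≤ y 0 → 0 ≤ y 1 → y 3 ^ 2 = y 0 * y 1 →
      MvPolynomial.eval y p = 0 := by
    intro y hy0 hy1 hy
    have h2 : ∃ v : ℝ, v ^ 2 = y 1 ∧ Real.sqrt (y 0) * v = y 3 := by
      have h3 : |y 3| = Real.sqrt (y 0) * Real.sqrt (y 1) := by
        rw [← Real.sqrt_mul hy0, ← hy, Real.sqrt_sq_eq_abs]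
      rcases le_total 0 (y 3) with h | h
      · exact ⟨Real.sqrt (y 1), Real.sq_sqrt hy1, by rw [← h3, abs_of_nonneg h]⟩
      · refine ⟨-Real.sqrt (y 1), by rw [neg_sq, Real.sq_sqrt hy1], ?_⟩
        rw [mul_neg, ← h3, abs_of_nonpos h, neg_neg]
    obtain ⟨v, hv, hv'⟩ := h2
    have h4 := s2 (Real.sqrt (y 0)) v (y 2) (y 4)
    rw [Real.sq_sqrt hy0, hv, hv'] at h4
    have h5 : ![y 0, y 1, y 2, y 3, y 4] = y := by
      funext i
      fin_cases i <;> rfl
    rw [h5] at h4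
    exact h4
  have h6 : 0 ≤ x 0 * x 1 := h1 ▸ sq_nonneg _
  rcases mul_nonneg_iff.mp h6 with ⟨h, h'⟩ | ⟨h, h'⟩
  · exact s3 x h h' h1
  · have h7 := s3 (-x) (by simpa using h) (by simpa using h') (by simpa using h1)
    have h8 : x = (-1 : ℝ) • (-x) := by simp
    rw [h8, eval_smul_of_homog hp, h7, mul_zero]

open Polynomial in
/-- `p` vanishes on the whole quadric `x₀ x₂ = x₄ ^ 2`. -/
theorem vanish_quadric_second {p : MvPolynomial (Fin 5) ℝ} {e : Fin 5 → ℝ} {d : ℕ}
    (hp : p.IsHomogeneous d) (he : 0 < MvPolynomial.eval e p)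
    (hK : vinbergCone = hyperbolicityCone p e)
    (x : Fin 5 → ℝ) (h1 : x 4 ^ 2 = x 0 * x 2) : MvPolynomial.eval x p = 0 := by
  have s1 : ∀ u v z w : ℝ, u ≠ 0 → MvPolynomial.eval ![u ^ 2, z, v ^ 2, w, u * v] p = 0 := by
    intro u v z w hu
    have hu2 : 0 < u ^ 2 := by positivity
    have h := vanish_curve p ![Polynomial.C (u ^ 2), Polynomial.X, Polynomial.C (v ^ 2),
      Polynomial.C w, Polynomial.C (u * v)] (Set.Ioi (w ^ 2 / u ^ 2)) (Set.Ioi_infinite _) ?_ z
    · have e1 : (fun i => (![Polynomial.C (u ^ 2), Polynomial.X, Polynomial.C (v ^ 2),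
          Polynomial.C w, Polynomial.C (u * v)] i).eval z) = ![u ^ 2, z, v ^ 2, w, u * v] := by
        funext i
        fin_cases i <;> simp
      rw [e1] at h
      exact h
    · intro t ht
      apply vanish_second hp he hK
      · simpa using hu2
      · simp; ring
      · have ht' : w ^ 2 / u ^ 2 < t := ht
        rw [div_lt_iff₀ hu2] at ht'
        simp
        linarith
  have s2 : ∀ u v z w : ℝ, MvPolynomial.eval ![u ^ 2, z, v ^ 2, w, u * v] p = 0 := by
    intro u v z w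
    have h := vanish_curve p ![Polynomial.X ^ 2, Polynomial.C z, Polynomial.C (v ^ 2),
      Polynomial.C w, Polynomial.X * Polynomial.C v] (Set.Ioi 0) (Set.Ioi_infinite _) ?_ u
    · have e1 : (fun i => (![Polynomial.X ^ 2, Polynomial.C z, Polynomial.C (v ^ 2),
          Polynomial.C w, Polynomial.X * Polynomial.C v] i).eval u) =
          ![u ^ 2, z, v ^ 2, w, u * v] := by
        funext i
        fin_cases i <;> simp
        all_goals ring
      rw [e1] at h
      exact h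
    · intro t ht
      have ht' : 0 < t := ht
      have e1 : (fun i => (![Polynomial.X ^ 2, Polynomial.C z, Polynomial.C (v ^ 2),
          Polynomial.C w, Polynomial.X * Polynomial.C v] i).eval t) =
          ![t ^ 2, z, v ^ 2, w, t * v] := by
        funext i
        fin_cases i <;> simp
        all_goals ring
      rw [e1]
      exact s1 t v z w ht'.ne'
  have s3 : ∀ y : Fin 5 → ℝ, 0 ≤ y 0 → 0 ≤ y 2 → y 4 ^ 2 = y 0 * y 2 →
      MvPolynomial.eval y p = 0 := by
    intro y hy0 hy1 hy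
    have h2 : ∃ v : ℝ, v ^ 2 = y 2 ∧ Real.sqrt (y 0) * v = y 4 := by
      have h3 : |y 4| = Real.sqrt (y 0) * Real.sqrt (y 2) := by
        rw [← Real.sqrt_mul hy0, ← hy, Real.sqrt_sq_eq_abs]
      rcases le_total 0 (y 4) with h | h
      · exact ⟨Real.sqrt (y 2), Real.sq_sqrt hy1, by rw [← h3, abs_of_nonneg h]⟩
      · refine ⟨-Real.sqrt (y 2), by rw [neg_sq, Real.sq_sqrt hy1], ?_⟩
        rw [mul_neg, ← h3, abs_of_nonpos h, neg_neg]
    obtain ⟨v, hv, hv'⟩ := h2
    have h4 := s2 (Real.sqrt (y 0)) v (y 1) (y 3)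
    rw [Real.sq_sqrt hy0, hv, hv'] at h4
    have h5 : ![y 0, y 1, y 2, y 3, y 4] = y := by
      funext i
      fin_cases i <;> rfl
    rw [h5] at h4
    exact h4
  have h6 : 0 ≤ x 0 * x 2 := h1 ▸ sq_nonneg _
  rcases mul_nonneg_iff.mp h6 with ⟨h, h'⟩ | ⟨h, h'⟩
  · exact s3 x h h' h1
  · have h7 := s3 (-x) (by simpa using h) (by simpa using h') (by simpa using h1)
    have h8 : x = (-1 : ℝ) • (-x) := by simp
    rw [h8, eval_smul_of_homog hp, h7, mul_zero]

/-! ### The extreme rays -/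

/-- The generator `(1, 0, b², 0, b)` of an extreme ray. -/
def gen (b : ℝ) : Fin 5 → ℝ := ![1, 0, b ^ 2, 0, b]

theorem gen_mem (b : ℝ) : gen b ∈ vinbergCone := by
  simp only [vinbergCone, Set.mem_ofPred_eq, gen]
  simp
  positivity

theorem kernel_eq (u v w a : ℝ) (hu : 0 ≤ u) (h : w ^ 2 ≤ u * v)
    (h0 : a ^ 2 * u - 2 * a * w + v = 0) : w = a * u ∧ v = a ^ 2 * u := by
  have h1 : (w - a * u) ^ 2 ≤ 0 := by nlinarith
  have h2 : w - a * u = 0 := pow_eq_zero_iff (two_ne_zero) |>.mp (le_antisymm h1 (sq_nonneg _))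
  have h3 : w = a * u := by linarith
  refine ⟨h3, ?_⟩
  rw [h3] at h0
  linarith

theorem kernel_nonneg (u v w a : ℝ) (hu : 0 ≤ u) (hv : 0 ≤ v) (h : w ^ 2 ≤ u * v) :
    0 ≤ a ^ 2 * u - 2 * a * w + v := by
  rcases hu.lt_or_eq with hu | hu
  · have : 0 ≤ u * (a ^ 2 * u - 2 * a * w + v) := by
      nlinarith [sq_nonneg (a * u - w)]
    exact nonneg_of_mul_nonneg_right this hu
  · rw [← hu, zero_mul] at h
    have hw : w = 0 := pow_eq_zero_iff (two_ne_zero) |>.mp (le_antisymm h (sq_nonneg _))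
    rw [hw, ← hu]
    linarith

/-- If `y, z ∈ K` and `y + z = c (1, 0, b², 0, b)`, then `y` is a multiple of
`(1, 0, b², 0, b)`. -/
theorem gen_extreme (b c : ℝ) (y z : Fin 5 → ℝ) (hy : y ∈ vinbergCone) (hz : z ∈ vinbergCone)
    (h : y + z = c • gen b) : y = y 0 • gen b := by
  obtain ⟨y0, y1, y2, y3, y4⟩ := hy
  obtain ⟨z0, z1, z2, z3, z4⟩ := hz
  have c0 : y 0 + z 0 = c := by have := congrFun h 0; simpa [gen] using this
  have c1 : y 1 + z 1 = 0 := by have := congrFun h 1; simpa [gen] using this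
  have c2 : y 2 + z 2 = c * b ^ 2 := by have := congrFun h 2; simpa [gen] using this
  have c3 : y 3 + z 3 = 0 := by have := congrFun h 3; simpa [gen] using this
  have c4 : y 4 + z 4 = c * b := by have := congrFun h 4; simpa [gen] using this
  have k1 := kernel_nonneg (y 0) (y 1) (y 3) 0 y0 y1 y3
  have k2 := kernel_nonneg (z 0) (z 1) (z 3) 0 z0 z1 z3
  have k3 := kernel_nonneg (y 0) (y 2) (y 4) b y0 y2 y4
  have k4 := kernel_nonneg (z 0) (z 2) (z 4) b z0 z2 z4
  obtain ⟨e3, e1⟩ := kernel_eq (y 0) (y 1) (y 3) 0 y0 y3 (by linarith)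
  have k5 : (b ^ 2 * y 0 - 2 * b * y 4 + y 2) + (b ^ 2 * z 0 - 2 * b * z 4 + z 2) = 0 := by
    linear_combination (b ^ 2) * c0 - 2 * b * c4 + c2
  obtain ⟨e4, e2⟩ := kernel_eq (y 0) (y 2) (y 4) b y0 y4 (by linarith)
  funext i
  fin_cases i
  · simp [gen]
  · simp [gen]; linarith
  · simp [gen]; linarith
  · simp [gen]; linarith
  · simp [gen]; linarith

theorem ray_extreme (b : ℝ) : IsExtremeRay vinbergCone (ray (gen b)) := by
  refine ⟨⟨⟨⟨0, le_rfl, by simp⟩, ?_, ?_⟩, ?_, ?_⟩, ?_⟩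
  · rintro _ ⟨c, hc, rfl⟩ _ ⟨c', hc', rfl⟩
    exact ⟨c + c', add_nonneg hc hc', by rw [add_smul]⟩
  · rintro r hr _ ⟨c, hc, rfl⟩
    exact ⟨r * c, mul_nonneg hr hc, by rw [smul_smul]⟩
  · rintro _ ⟨c, hc, rfl⟩
    exact vinberg_cone.2.2 c hc _ (gen_mem b)
  · rintro y hy z hz ⟨c, hc, h⟩
    refine ⟨⟨y 0, hy.1, gen_extreme b c y z hy hz h⟩, ⟨z 0, hz.1, ?_⟩⟩
    rw [add_comm] at h
    exact gen_extreme b c z y hz hy h
  · have h1 : Submodule.span ℝ (ray (gen b)) = Submodule.span ℝ {gen b} := by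
      apply le_antisymm
      · rw [Submodule.span_le]
        rintro _ ⟨c, -, rfl⟩
        exact Submodule.smul_mem _ _ (Submodule.mem_span_singleton_self _)
      · rw [Submodule.span_le, Set.singleton_subset_iff]
        exact Submodule.subset_span ⟨1, zero_le_one, by simp⟩
    rw [h1]
    apply finrank_span_singleton
    intro h
    have := congrFun h 0
    simp [gen] at this

theorem two_le_rank {n : ℕ} {p : MvPolynomial (Fin n) ℝ} {e : Fin n → ℝ} {d : ℕ}
    (hp : p.IsHomogeneous d) (he : 0 < eval e p) (x : Fin n → ℝ) (s t : ℝ) (hs : s ≠ 0)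
    (ht : t ≠ 0) (hst : s ≠ t) (h1 : eval (s • e - x) p = 0) (h2 : eval (t • e - x) p = 0) :
    2 ≤ rank p e x := by
  classical
  have m1 : s ∈ eigenvalues p e x := by
    unfold eigenvalues
    rw [Polynomial.mem_roots (charPoly_ne_zero hp he x), Polynomial.IsRoot, eval_charPoly]
    exact h1
  have m2 : t ∈ eigenvalues p e x := by
    unfold eigenvalues
    rw [Polynomial.mem_roots (charPoly_ne_zero hp he x), Polynomial.IsRoot, eval_charPoly]
    exact h2
  have h3 : ({s, t} : Finset ℝ) ⊆ ((eigenvalues p e x).filter (fun r => r ≠ 0)).toFinset := by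
    intro r hr
    simp only [Finset.mem_insert, Finset.mem_singleton] at hr
    rw [Multiset.mem_toFinset, Multiset.mem_filter]
    rcases hr with rfl | rfl
    · exact ⟨m1, hs⟩
    · exact ⟨m2, ht⟩
  have h4 := Finset.card_le_card h3
  rw [Finset.card_pair hst] at h4
  refine h4.trans ((Multiset.toFinset_card_le _).trans (le_of_eq ?_))
  unfold rank
  congr

/-- **The Vinberg cone has an extreme ray of rank at least two, for every hyperbolic polynomial
which defines it.** -/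
theorem exists_rank_two {p : MvPolynomial (Fin 5) ℝ} {e : Fin 5 → ℝ} (h : IsHyperbolic p e)
    (hK : vinbergCone = hyperbolicityCone p e) :
    ∃ b : ℝ, ∀ c : ℝ, 0 < c → 2 ≤ rank p e (c • gen b) := by
  obtain ⟨⟨d, hp⟩, he, -⟩ := h
  obtain ⟨e0, e1, e2, e3, e4⟩ := dir_mem hp he hK
  have D1 : 0 < e 0 * e 1 - e 3 ^ 2 := by linarith
  have D2 : 0 < e 0 * e 2 - e 4 ^ 2 := by linarith
  -- the two nonzero eigenvalues
  have key : ∀ b : ℝ, e 1 / (e 0 * e 1 - e 3 ^ 2) ≠
      (e 2 + b ^ 2 * e 0 - 2 * b * e 4) / (e 0 * e 2 - e 4 ^ 2) →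
      ∀ c : ℝ, 0 < c → 2 ≤ rank p e (c • gen b) := by
    intro b hne c hc
    have hnum : 0 < e 2 + b ^ 2 * e 0 - 2 * b * e 4 := by
      have : 0 < e 0 * (e 2 + b ^ 2 * e 0 - 2 * b * e 4) := by
        nlinarith [sq_nonneg (b * e 0 - e 4)]
      exact pos_of_mul_pos_right this e0.le
    have scale : ∀ s : ℝ, eval (s • e - gen b) p = 0 → eval ((c * s) • e - c • gen b) p = 0 := by
      intro s hs
      have h1 : (c * s) • e - c • gen b = c • (s • e - gen b) := by rw [smul_sub, smul_smul]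
      rw [h1, eval_smul_of_homog hp, hs, mul_zero]
    refine two_le_rank hp he _ _ _ (mul_pos hc (div_pos e1 D1)).ne'
      (mul_pos hc (div_pos hnum D2)).ne' (fun h => hne (mul_left_cancel₀ hc.ne' h))
      (scale _ ?_) (scale _ ?_)
    · apply vanish_quadric_first hp he hK
      obtain ⟨s, hs⟩ : ∃ s, s = e 1 / (e 0 * e 1 - e 3 ^ 2) := ⟨_, rfl⟩
      rw [← hs]
      rw [eq_div_iff D1.ne'] at hs
      have g0 : gen b 0 = 1 := rfl
      have g1 : gen b 1 = 0 := rfl
      have g3 : gen b 3 = 0 := rfl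
      simp only [Pi.sub_apply, Pi.smul_apply, smul_eq_mul, g0, g1, g3]
      linear_combination (-s) * hs
    · apply vanish_quadric_second hp he hK
      obtain ⟨s, hs⟩ : ∃ s, s = (e 2 + b ^ 2 * e 0 - 2 * b * e 4) / (e 0 * e 2 - e 4 ^ 2) :=
        ⟨_, rfl⟩
      rw [← hs]
      rw [eq_div_iff D2.ne'] at hs
      have g0 : gen b 0 = 1 := rfl
      have g2 : gen b 2 = b ^ 2 := rfl
      have g4 : gen b 4 = b := rfl
      simp only [Pi.sub_apply, Pi.smul_apply, smul_eq_mul, g0, g2, g4]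
      linear_combination (-s) * hs
  by_contra hcon
  push Not at hcon
  have k : ∀ b : ℝ, e 1 / (e 0 * e 1 - e 3 ^ 2) =
      (e 2 + b ^ 2 * e 0 - 2 * b * e 4) / (e 0 * e 2 - e 4 ^ 2) := by
    intro b
    by_contra hb
    obtain ⟨c, hc, hlt⟩ := hcon b
    have := key b hb c hc
    omega
  have k0 := k 0
  have k1 := k 1
  have k2 := k (-1)
  rw [k0] at k1 k2
  rw [div_left_inj' D2.ne'] at k1 k2
  nlinarith

/-! ### The Vinberg cone is a hyperbolicity cone -/

/-- The product of the two determinants. -/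
noncomputable def detProd : MvPolynomial (Fin 5) ℝ :=
  (X 0 * X 1 - X 3 ^ 2) * (X 0 * X 2 - X 4 ^ 2)

theorem eval_detProd (x : Fin 5 → ℝ) :
    eval x detProd = (x 0 * x 1 - x 3 ^ 2) * (x 0 * x 2 - x 4 ^ 2) := by
  simp [detProd]

theorem detProd_homog : detProd.IsHomogeneous 4 := by
  have h1 : ∀ i j : Fin 5, (X i * X j : MvPolynomial (Fin 5) ℝ).IsHomogeneous 2 :=
    fun i j => (isHomogeneous_X ℝ i).mul (isHomogeneous_X ℝ j)
  have h2 : ∀ i : Fin 5, (X i ^ 2 : MvPolynomial (Fin 5) ℝ).IsHomogeneous 2 :=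
    fun i => by simpa using (isHomogeneous_X ℝ i).pow 2
  exact ((h1 0 1).sub (h2 3)).mul ((h1 0 2).sub (h2 4))

theorem real_root (u v w : ℝ) (z : ℂ) (h : (u - z) * (v - z) - (w : ℂ) ^ 2 = 0) : z.im = 0 := by
  have hre := congrArg Complex.re h
  have him := congrArg Complex.im h
  simp [pow_two] at hre him
  by_contra hz
  have h1 : u + v = 2 * z.re := by
    have : z.im * (u + v - 2 * z.re) = 0 := by linear_combination -him
    rcases mul_eq_zero.mp this with h | h
    · exact absurd h hz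
    · linarith
  have h2 : (u - v) ^ 2 + 4 * w ^ 2 + 4 * z.im ^ 2 = 0 := by
    have h3 : z.re = (u + v) / 2 := by linarith
    rw [h3] at hre
    nlinarith
  have h3 : 0 < z.im ^ 2 := by positivity
  nlinarith [sq_nonneg (u - v), sq_nonneg w]

theorem detProd_hyperbolic : IsHyperbolic detProd ![1, 1, 1, 0, 0] := by
  refine ⟨⟨4, detProd_homog⟩, by rw [eval_detProd]; simp, ?_⟩
  intro x z hz
  have h : Polynomial.aeval z (linePoly detProd ![1, 1, 1, 0, 0] x) =
      (((x 0 : ℂ) - z) * ((x 1 : ℂ) - z) - (x 3 : ℂ) ^ 2) *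
        (((x 0 : ℂ) - z) * ((x 2 : ℂ) - z) - (x 4 : ℂ) ^ 2) := by
    unfold linePoly detProd
    simp
  rw [h] at hz
  rcases mul_eq_zero.mp hz with h | h
  · exact real_root _ _ _ z h
  · exact real_root _ _ _ z h

theorem small_root (u v w : ℝ) (h : u < 0 ∨ v < 0 ∨ u * v < w ^ 2) :
    ∃ t : ℝ, t < 0 ∧ (t - u) * (t - v) - w ^ 2 = 0 := by
  have hD : 0 ≤ (u - v) ^ 2 + 4 * w ^ 2 := by positivity
  have hs := Real.sq_sqrt hD
  have hs0 := Real.sqrt_nonneg ((u - v) ^ 2 + 4 * w ^ 2)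
  refine ⟨(u + v - Real.sqrt ((u - v) ^ 2 + 4 * w ^ 2)) / 2, ?_, by nlinarith⟩
  by_contra hcon
  push Not at hcon
  have h1 : Real.sqrt ((u - v) ^ 2 + 4 * w ^ 2) ≤ u + v := by linarith
  have h2 : (u - v) ^ 2 + 4 * w ^ 2 ≤ (u + v) ^ 2 := by
    rw [← hs]
    gcongr
  have h3 : w ^ 2 ≤ u * v := by nlinarith
  have h4 : 0 ≤ u * v := le_trans (sq_nonneg w) h3
  have h5 : 0 ≤ u + v := le_trans hs0 h1
  rcases h with h | h | h
  · nlinarith
  · nlinarith
  · linarith

theorem vinberg_eq : vinbergCone = hyperbolicityCone detProd ![1, 1, 1, 0, 0] := by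
  have he : 0 < eval (![1, 1, 1, 0, 0] : Fin 5 → ℝ) detProd := by rw [eval_detProd]; simp
  have ev : ∀ (t : ℝ) (x : Fin 5 → ℝ), eval (t • (![1, 1, 1, 0, 0] : Fin 5 → ℝ) - x) detProd =
      ((t - x 0) * (t - x 1) - x 3 ^ 2) * ((t - x 0) * (t - x 2) - x 4 ^ 2) := by
    intro t x
    rw [eval_detProd]
    simp
  ext x
  rw [mem_cone_iff detProd_homog he]
  constructor
  · rintro ⟨h0, h1, h2, h3, h4⟩ t ht
    rw [ev] at ht
    by_contra hneg
    push Not at hneg
    have a0 : 0 < x 0 - t := by linarith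
    have a1 : 0 < x 1 - t := by linarith
    have a2 : 0 < x 2 - t := by linarith
    rcases mul_eq_zero.mp ht with h | h
    · nlinarith [mul_pos (neg_pos.mpr hneg) a0, mul_nonneg h1 (neg_pos.mpr hneg).le]
    · nlinarith [mul_pos (neg_pos.mpr hneg) a0, mul_nonneg h2 (neg_pos.mpr hneg).le]
  · intro h
    by_contra hx
    have h5 : (x 0 < 0 ∨ x 1 < 0 ∨ x 0 * x 1 < x 3 ^ 2) ∨
        (x 0 < 0 ∨ x 2 < 0 ∨ x 0 * x 2 < x 4 ^ 2) := by
      by_contra hcon
      push Not at hcon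
      exact hx ⟨hcon.1.1, hcon.1.2.1, hcon.2.2.1, hcon.1.2.2, hcon.2.2.2⟩
    rcases h5 with h5 | h5
    · obtain ⟨t, ht, ht'⟩ := small_root _ _ _ h5
      have := h t (by rw [ev, ht', zero_mul])
      linarith
    · obtain ⟨t, ht, ht'⟩ := small_root _ _ _ h5
      have := h t (by rw [ev, ht', mul_zero])
      linarith

/-- **Not every homogeneous cone is a ROG hyperbolicity cone.** There is a pointed full-dimensional
homogeneous closed convex cone `K ⊆ ℝ^5` (the Vinberg cone) which is a hyperbolicity cone, such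
that for every polynomial `p` hyperbolic along `e` with `K = Λ₊(p, e)` some extreme ray of `K` is
generated by an element of rank at least `2` with respect to `p` and `e`; in particular `K` is not
ROG. -/
theorem result :
    ∃ K : Set (Fin 5 → ℝ), IsHomogeneousCone K ∧
      (∃ (p : MvPolynomial (Fin 5) ℝ) (e : Fin 5 → ℝ), IsHyperbolic p e ∧
        K = hyperbolicityCone p e) ∧
      ¬ IsROG K ∧
      ∀ (p : MvPolynomial (Fin 5) ℝ) (e : Fin 5 → ℝ), IsHyperbolic p e →
        K = hyperbolicityCone p e →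
        ∃ x : Fin 5 → ℝ, IsExtremeRay K (ray x) ∧ 2 ≤ rank p e x := by
  refine ⟨vinbergCone, vinberg_homogeneous, ⟨detProd, ![1, 1, 1, 0, 0], detProd_hyperbolic,
    vinberg_eq⟩, ?_, ?_⟩
  · rintro ⟨p, e, hpe, hK, hF⟩
    obtain ⟨b, hb⟩ := exists_rank_two hpe hK
    obtain ⟨x, hx, hr⟩ := hF _ (ray_extreme b)
    have hxm : x ∈ ray (gen b) := by
      rw [hx]
      exact ⟨1, zero_le_one, by simp⟩
    obtain ⟨c, hc, rfl⟩ := hxm
    have hc0 : 0 < c := by
      rcases hc.lt_or_eq with h | h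
      · exact h
      · exfalso
        have hg : gen b ∈ ray (c • gen b) := by
          rw [← hx]
          exact ⟨1, zero_le_one, by simp⟩
        obtain ⟨c', -, h'⟩ := hg
        rw [← h] at h'
        have := congrFun h' 0
        simp [gen] at this
    have := hb c hc0
    omega
  · intro p e hpe hK
    obtain ⟨b, hb⟩ := exists_rank_two hpe hK
    refine ⟨gen b, ray_extreme b, ?_⟩
    have := hb 1 one_pos
    rwa [one_smul] at this

end Pool.Agent.Results.MP_3ab8ef_ag.VinbergConeNotROG
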